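import Pool.Agent.Q35.GM.Fin
import Pool.Agent.Q68.GM.Ker
import Pool.Agent.Q68.GM.Ela
import Pool.Agent.Q68.GM.Elp
import Pool.Agent.Q68.GM.Cutx
import Pool.Agent.Q53.GM.Thin
import Pool.Agent.Q53.GM.Mobb
import Pool.Agent.Q53.GM.Ucp
import Pool.Agent.Q14.GM.Psz
import Pool.Agent.Q137.GM.PLB
import Pool.Agent.Q262.GM.VF
import Pool.Agent.Q262.GM.SPL
import Pool.Agent.Q238.GM.Cnt
import Pool.Agent.Q237.GM.Min
import Pool.Agent.Q237.GM.Avg
import Pool.Agent.Q238.GM.Cau
import Pool.Agent.Q238.GM.Pos
import Pool.Agent.Q31.GM.UBS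
import Pool.Agent.Q25.GM.APL
import Pool.Agent.Q149.GM.INT
import Pool.Agent.Q65.GM.NIC
import Pool.Agent.Q285.GM.LIM
import Pool.Agent.Q285.GM.LA
import Pool.Agent.Q285.MM.Ad
import Pool.Agent.Q285.MM.Lw
import Pool.Agent.Q144.MM.Db
import Pool.Agent.Q24.MM.MK
import Pool.Agent.Q261.SMA.Sa
import Pool.Agent.Q298.SM.T
import Pool.Agent.Q298.SM.B
import Pool.Agent.Q298.SM.D
import Pool.Agent.Q184.SM.Cnt
import Pool.Agent.Q79.SM.Gg
import Pool.Agent.Q151.LO.Rep
import Pool.Agent.Q151.LO.HbNo
import Pool.Agent.Q151.LO.Pig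
import Pool.Agent.Q151.LO.Rev
import Pool.Agent.Q128.LO.SMALL
import Pool.Agent.Q128.LO.FR
import Pool.Agent.Q162.LO.Reg
import Pool.Agent.Q162.LO.Sz
import Pool.Agent.Q162.LO.Sc
import Pool.Agent.Q166.EO.Lat
import Pool.Agent.Q176.EO.Fib
import Pool.Agent.Q176.EO.Sum2
import Pool.Agent.Q26.EO.St
import Pool.Agent.Q227.EO.De
import Pool.Agent.Q182.EO.Un
import Pool.Agent.Q166.EO.GG
import Pool.Agent.Q31.EO.Tau
import Pool.Agent.Q227.EO.Hyp
import Pool.Agent.Q241.EO.HYPR
import Pool.Agent.Q96.EOW.STW
import Pool.Agent.Q96.EOW.TAUW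
import Pool.Agent.Q238.EOW.GGW
import Pool.Agent.Q224.EOW.PSI
import Pool.Agent.Q224.EOW.APX
import Pool.Agent.Q47.EOW.CP1
import Pool.Agent.Q68.EOW.Thl
import Pool.Agent.Q53.EOW.Latw

/-!
# Manin's conjecture for all smooth linear sections of small codimension of the Grassmannians of lines,
over all number fields, for all adelic anticanonical heights

`K` is a number field, `X` is the variety of the planes `W` in `K ^ (N + 1)` on which `k` given
alternating bilinear forms vanish: a linear section of codimension `k` of the Grassmannian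
`Gr(2, N + 1)` of the lines in the projective space of dimension `N`, in its Pluecker embedding. `X` is
supposed to be smooth of codimension `k`, and `1 ≤ k`, `4 k ≤ N`. By the theorem of Lefschetz the Picard
group of `X` is generated by the hyperplane class `O(1)`, and the anticanonical class is
`O(N + 1 - k)`. So `X` is a smooth Fano variety of Picard number 1, and the conjectured number of points
of anticanonical height at most `B` is `~ c B`.

* `Alternating M`: the matrix `M` is the matrix of an alternating form.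
* `value L M x y`: the value of the bilinear form with the matrix `M` at the vectors `x`, `y` over `L`.
* `wedge x y`: the Pluecker coordinates `x a * y b - x b * y a` of the plane spanned by `x` and `y`.
* `Smooth M`: if over the algebraic closure of `K` the `k` forms vanish at a pair `(x, y)` of linearly
  independent vectors, then no nontrivial linear combination of the gradients of the `k` bilinear forms
  in `(x, y)` is zero; that is, `X` is smooth of codimension `k`.
* `IsIn M A p`: the point `p` of the projective space of the Pluecker coordinates is a point of `X`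
  (`p` is the class of `wedge x y`, and the forms vanish at `(x, y)`), and some polynomial in the finite
  set `A` does not vanish at `p`: so `p` is in the open subset `U` of `X`, the complement of the common
  zeros of `A`.
* `Cone M L`: the nonzero vectors `wedge x y` over the field `L` such that the forms vanish at `(x, y)`.
* `IsFactor M L ψ`: `ψ` is a positive continuous function on `X(L)`, that is, a continuous function on
  `Cone M L` with positive values which does not change if the vector is multiplied by a nonzero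
  element of `L`.
* `height k T ψ φ p`: the product of the standard anticanonical height `H(p) ^ (N + 1 - k)` (`H` is the
  multiplicative height of Mathlib, with respect to `K`) with the values at `p` of the functions `ψ w`
  on `X(K_w)` for all infinite places `w` and `φ v` on `X(K_v)` for all primes `v` in the finite set
  `T`. The adelic metrics on the anticanonical bundle of `X` differ by such functions; so these are all
  relative adelic heights for the anticanonical bundle.
* `bounded M A T ψ φ B`: the points of `U` over `K` of height at most `B`.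

Theorem: there is an open subset `U` of `X` which has points over `K` such that for every relative
adelic height for the anticanonical bundle the number of the points of `U` over `K` of height at most
`B` is asymptotically equal to `c B`, with `c > 0`.
-/

set_option autoImplicit false

namespace Pool.Agent.Results.MP_1acd66_nt.GrassmannianSections

open Finset Function MvPolynomial NumberField IsDedekindDomain

section

variable {K : Type} [Field K] {m k : ℕ}

/-- The matrix is the matrix of an alternating form. -/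
def Alternating (M : Matrix (Fin m) (Fin m) K) : Prop := M.transpose = -M ∧ ∀ a, M a a = 0

/-- The value of the bilinear form with the matrix `M`. -/
def value (L : Type) [CommRing L] [Algebra K L] (M : Matrix (Fin m) (Fin m) K)
    (x y : Fin m → L) : L :=
  ∑ a, ∑ b, algebraMap K L (M a b) * (x a * y b)

/-- The Pluecker coordinates of the plane spanned by `x` and `y`. -/
def wedge {L : Type} [CommRing L] (x y : Fin m → L) : Fin m × Fin m → L :=
  fun p => x p.1 * y p.2 - x p.2 * y p.1

/-- `X` is smooth of codimension `k`. -/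
def Smooth (M : Fin k → Matrix (Fin m) (Fin m) K) : Prop :=
  ∀ x y : Fin m → AlgebraicClosure K, LinearIndependent (AlgebraicClosure K) ![x, y] →
    (∀ t, value (AlgebraicClosure K) (M t) x y = 0) →
    ∀ μ : Fin k → AlgebraicClosure K, μ ≠ 0 → ∃ v : Fin m → AlgebraicClosure K,
      ∑ t, μ t * value (AlgebraicClosure K) (M t) x v ≠ 0 ∨
        ∑ t, μ t * value (AlgebraicClosure K) (M t) v y ≠ 0

/-- The point `p` is in `U`: it is a point of `X`, and some `g` in `A` does not vanish at `p`. -/
def IsIn (M : Fin k → Matrix (Fin m) (Fin m) K) (A : Finset (MvPolynomial (Fin m × Fin m) K))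
    (p : Projectivization K (Fin m × Fin m → K)) : Prop :=
  (∃ x y : Fin m → K, p.rep = wedge x y ∧ ∀ t, value K (M t) x y = 0) ∧
    ∃ g ∈ A, aeval p.rep g ≠ 0

/-- The cone over `X(L)`. -/
def Cone (M : Fin k → Matrix (Fin m) (Fin m) K) (L : Type) [Field L] [Algebra K L]
    (q : Fin m × Fin m → L) : Prop :=
  q ≠ 0 ∧ ∃ x y : Fin m → L, q = wedge x y ∧ ∀ t, value L (M t) x y = 0

/-- A positive continuous function on `X(L)`. -/
structure IsFactor (M : Fin k → Matrix (Fin m) (Fin m) K) (L : Type) [NormedField L]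
    [Algebra K L] (ψ : (Fin m × Fin m → L) → ℝ) : Prop where
  positive : ∀ q, Cone M L q → 0 < ψ q
  continuous : ContinuousOn ψ {q | Cone M L q}
  invariant : ∀ a : L, a ≠ 0 → ∀ q, Cone M L q → ψ (a • q) = ψ q

/-- The height of a point, for the local factors `ψ w` (`w` infinite) and `φ v` (`v` in `T`). -/
noncomputable def height [NumberField K] (r : ℕ) (T : Finset (HeightOneSpectrum (𝓞 K)))
    (ψ : ∀ w : InfinitePlace K, (Fin m × Fin m → w.Completion) → ℝ)
    (φ : ∀ v : HeightOneSpectrum (𝓞 K), (Fin m × Fin m → v.adicCompletion K) → ℝ)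
    (p : Projectivization K (Fin m × Fin m → K)) : ℝ :=
  p.mulHeight ^ r *
    ((∏ w, ψ w fun q => algebraMap K w.Completion (p.rep q)) *
      ∏ v ∈ T, φ v fun q => algebraMap K (v.adicCompletion K) (p.rep q))

/-- The points of `U` of height at most `B`; `r = m - k`. -/
def bounded [NumberField K] (M : Fin k → Matrix (Fin m) (Fin m) K)
    (A : Finset (MvPolynomial (Fin m × Fin m) K)) (T : Finset (HeightOneSpectrum (𝓞 K)))
    (ψ : ∀ w : InfinitePlace K, (Fin m × Fin m → w.Completion) → ℝ)
    (φ : ∀ v : HeightOneSpectrum (𝓞 K), (Fin m × Fin m → v.adicCompletion K) → ℝ) (B : ℝ) :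
    Set (Projectivization K (Fin m × Fin m → K)) :=
  {p | IsIn M A p ∧ height (m - k) T ψ φ p ≤ B}

end

theorem result (K : Type) [Field K] [NumberField K] (N k : ℕ) (hk : 1 ≤ k) (hN : 4 * k ≤ N)
    (M : Fin k → Matrix (Fin (N + 1)) (Fin (N + 1)) K) (hM : ∀ t, Alternating (M t))
    (hS : Smooth M) :
    ∃ A : Finset (MvPolynomial (Fin (N + 1) × Fin (N + 1)) K),
      (∀ g ∈ A, ∃ e, g.IsHomogeneous e) ∧
      (∃ p : Projectivization K (Fin (N + 1) × Fin (N + 1) → K), IsIn M A p) ∧
      ∀ (T : Finset (HeightOneSpectrum (𝓞 K)))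
        (ψ : ∀ w : InfinitePlace K, (Fin (N + 1) × Fin (N + 1) → w.Completion) → ℝ)
        (φ : ∀ v : HeightOneSpectrum (𝓞 K),
          (Fin (N + 1) × Fin (N + 1) → v.adicCompletion K) → ℝ),
        (∀ w, IsFactor M w.Completion (ψ w)) → (∀ v ∈ T, IsFactor M (v.adicCompletion K) (φ v)) →
        ∃ c : ℝ, 0 < c ∧ Filter.Tendsto (fun B : ℝ => ((bounded M A T ψ φ B).ncard : ℝ) / B)
          Filter.atTop (nhds c) := by
  have hC := Q184.SM.scnt _root_.Q144.MM.db
  have hS' := Q128.LO.SMALL.small Q151.LO.rep Q151.LO.rev Q24.MM.mk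
  have hSC := Q162.LO.sc Q151.LO.rep Q151.LO.hb Q151.LO.pig hS' Q128.LO.FR.fr Q162.LO.reg
    Q162.LO.sz
  have hNO := Q151.LO.no Q24.MM.mk
  have hFIB := Q176.EO.fib hC _root_.Q144.MM.db
  have hLIM := Q285.GM.lim Q262.GM.vf Q262.GM.spl Q238.GM.cnt
  have hLA := Q285.GM.la Q166.EO.lat Q262.GM.vf hLIM
  have hMIN := Q237.GM.min_ Q262.GM.vf hLIM _root_.Q144.MM.db Q151.LO.rep Q151.LO.hb Q24.MM.mk
  have hELA := Q68.GM.ela Q261.SMA.sa
  have hInp : Q35.GM.Inp :=
    { AD := Q285.MM.ad
      DB := _root_.Q144.MM.db
      LW := Q285.MM.lw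
      MK := Q24.MM.mk
      T0 := Q298.SM.st Q261.SMA.sa
      A := Q261.SMA.sa
      B := Q298.SM.sb
      C := hC
      D := Q298.SM.sd Q298.SM.sb
      G0 := Q79.SM.sg hC _root_.Q144.MM.db
      REP := Q151.LO.rep
      HB := Q151.LO.hb
      SC := hSC
      NO := hNO
      LAT := Q166.EO.lat
      ST := Q26.EO.st Q166.EO.lat hFIB _root_.Q144.MM.db
      DE := Q227.EO.de
      SUM := Q176.EO.sum2
      UN := Q182.EO.un
      GG := Q166.EO.gg Q182.EO.un hNO
      TAU := Q31.EO.tau
      HYPR := Q241.EO.hypr Q227.EO.hyp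
      STW := Q96.EOW.stw (Q53.EOW.latw Q166.EO.lat (Q68.EOW.thl Q166.EO.lat)) hFIB
        _root_.Q144.MM.db
      GGW := Q238.EOW.ggw Q182.EO.un hNO
      TAUW := Q96.EOW.tauw
      PSI := Q224.EOW.psi
      APX := Q224.EOW.apx
      CP1 := Q47.EOW.cp1 }
  have hInq : Q35.GM.Inq :=
    { KER := Q68.GM.ker
      ELA := hELA
      ELP := Q68.GM.elp hELA
      CUTX := Q68.GM.cutx Q298.SM.sb Q68.GM.ker
      THIN := Q53.GM.thin hC Q24.MM.mk
      MOBB := Q53.GM.mobb
      PSZ := Q14.GM.psz
      UCP := Q53.GM.ucp
      CPG := Q137.GM.cpg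
      PLB := Q137.GM.plb
      VF := Q262.GM.vf
      MIN := hMIN
      AVG := Q237.GM.avg Q182.EO.un hLA hMIN
      UBS := Q31.GM.ubs
      TAIL := Q25.GM.tail
      CAU := Q238.GM.cau
      POS := Q238.GM.pos Q25.GM.tail
      INT := Q149.GM.int
      NIC := Q65.GM.nic
      APL := Q25.GM.apl }
  obtain ⟨A, h1, h2, h3⟩ := Q35.GM.finG hInp hInq K N k hk hN M hM hS
  refine ⟨A, h1, h2, fun T ψ φ hψ hφ => ?_⟩
  have h4 := h3 T ψ φ (fun w => ⟨(hψ w).positive, (hψ w).continuous, (hψ w).invariant⟩)
    (fun v hv => ⟨(hφ v hv).positive, (hφ v hv).continuous, (hφ v hv).invariant⟩)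
  exact h4

end Pool.Agent.Results.MP_1acd66_nt.GrassmannianSections
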