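import Pool.Agent.Q35.EOW.Fin2
import Pool.Agent.Q285.MM.Ad
import Pool.Agent.Q285.MM.Lw
import Pool.Agent.Q144.MM.Db
import Pool.Agent.Q24.MM.MK
import Pool.Agent.Q261.SMA.Sa
import Pool.Agent.Q298.SM.T
import Pool.Agent.Q298.SM.B
import Pool.Agent.Q298.SM.D
import Pool.Agent.Q298.SM.E
import Pool.Agent.Q298.SM.F
import Pool.Agent.Q184.SM.Cnt
import Pool.Agent.Q79.SM.Gg
import Pool.Agent.Q151.LO.Rep
import Pool.Agent.Q151.LO.HbNo
import Pool.Agent.Q151.LO.Pig
import Pool.Agent.Q151.LO.Rev
import Pool.Agent.Q128.LO.SMALL
import Pool.Agent.Q128.LO.FR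
import Pool.Agent.Q162.LO.Reg
import Pool.Agent.Q162.LO.Sz
import Pool.Agent.Q162.LO.Sc
import Pool.Agent.Q166.EO.Lat
import Pool.Agent.Q176.EO.Fib
import Pool.Agent.Q176.EO.Sum2
import Pool.Agent.Q26.EO.St
import Pool.Agent.Q227.EO.De
import Pool.Agent.Q38.EO.HT
import Pool.Agent.Q182.EO.Un
import Pool.Agent.Q166.EO.GG
import Pool.Agent.Q31.EO.Tau
import Pool.Agent.Q227.EO.Hyp
import Pool.Agent.Q241.EO.HYPR
import Pool.Agent.Q280.EO.Mobk
import Pool.Agent.Q96.EOW.STW
import Pool.Agent.Q96.EOW.TAUW
import Pool.Agent.Q238.EOW.GGW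
import Pool.Agent.Q195.EOW.Mobkw
import Pool.Agent.Q203.EOW.Hyprw
import Pool.Agent.Q224.EOW.PSI
import Pool.Agent.Q224.EOW.APX
import Pool.Agent.Q47.EOW.CP1
import Pool.Agent.Q47.EOW.CP2
import Pool.Agent.Q68.EOW.Thl
import Pool.Agent.Q53.EOW.Latw

/-!
# Manin's conjecture for all smooth complete intersections of divisors of type `(1, ..., 1)` in products
of projective spaces of large dimension, over all number fields, for all adelic anticanonical heights

`K` is a number field, `ι` a finite set of `s ≥ 2` indices, `n i` the dimension of the `i`-th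
projective space (`i` in `ι`). `X` is a smooth complete intersection of `k` divisors of type
`(1, ..., 1)` in the product of the `s` projective spaces, with

`n i + 1 ≥ k s (s - 1) + k` for all `i`.

`X` is a Fano variety, its Picard group is generated by the pull-backs of the `s` hyperplane classes,
and the anticanonical class is `(n i + 1 - k)` (theorem of Lefschetz and adjunction); so the
conjectured number of points of anticanonical height at most `B` is `~ c B (log B) ^ (s - 1)`.

* `Form K n`: the coefficients of a multilinear form on the product of the spaces `K ^ (n i + 1)`: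
  `c a` is the coefficient of the monomial `∏ x_i (a i)`; `value A c x` is its value at the family `x`
  of vectors with coordinates in `A`.
* `Smooth c`: at all points over the algebraic closure of `K` at which the `k` forms vanish, no
  nontrivial linear combination of the `k` gradients is zero.
* `Multihomogeneous g`: the polynomial `g` in the coordinates of all vectors is homogeneous in the
  coordinates of each vector.
* `IsIn c A x`: the `k` forms vanish at the point `x`, and some polynomial in the finite set `A` does
  not: the point is in the open subset `U` of `X`, the complement of the common zeros of `A`.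
* `Cone c L`: the families of nonzero vectors over the field `L` at which the `k` forms vanish.
* `IsFactor c L ψ`: `ψ` is a positive continuous function on `X(L)`, that is, a continuous function on
  `Cone c L` with positive values which does not change if the vectors are multiplied by nonzero
  elements of `L`.
* `height c T ψ φ x`: the product of the standard anticanonical height `∏ H(x_i) ^ (n i + 1 - k)` (`H` is
  the multiplicative height of Mathlib, with respect to `K`) with the values at `x` of the functions
  `ψ w` on `X(K_w)` for all infinite places `w` and `φ v` on `X(K_v)` for all primes `v` in the finite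
  set `T`. The adelic metrics on the anticanonical bundle of `X` differ by such functions; so these are
  all relative adelic heights for the anticanonical bundle.
* `bounded c A T ψ φ B`: the points of `U` over `K` of height at most `B`.

Theorem: there is an open subset `U` of `X` which has points over `K` such that for every relative
adelic height for the anticanonical bundle the number of the points of `U` over `K` of height at most
`B` is asymptotically equal to `c B (log B) ^ (s - 1)`, with `c > 0`.
-/

set_option autoImplicit false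

namespace Pool.Agent.Results.MP_1acd66_nt.MultilinearAllAdelicHeights

open Finset Function MvPolynomial NumberField IsDedekindDomain

section

variable (K : Type) [Field K] {ι : Type} (n : ι → ℕ)

/-- The multilinear forms on the product of the spaces `K ^ (n i + 1)`, given by the coefficients. -/
abbrev Form : Type := (∀ i : ι, Fin (n i + 1)) → K

/-- The points of the product of the projective spaces. -/
abbrev Points : Type := ∀ i : ι, Projectivization K (Fin (n i + 1) → K)

/-- The families of vectors over the field. -/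
abbrev Vectors (L : Type) {ι : Type} (n : ι → ℕ) : Type := ∀ i : ι, Fin (n i + 1) → L

/-- The polynomials in the coordinates of all vectors. -/
abbrev Polynomials : Type := MvPolynomial ((i : ι) × Fin (n i + 1)) K

variable {K n} [Fintype ι] [DecidableEq ι]

/-- The value of a multilinear form. -/
def value (A : Type) [CommRing A] [Algebra K A] (c : Form K n) (x : ∀ i, Fin (n i + 1) → A) : A :=
  ∑ a, algebraMap K A (c a) * ∏ i, x i (a i)

/-- The complete intersection is smooth: at its points over the algebraic closure no nontrivial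
linear combination of the gradients of the `k` forms is zero. -/
def Smooth {k : ℕ} (c : Fin k → Form K n) : Prop :=
  ∀ x : ∀ i, Fin (n i + 1) → AlgebraicClosure K, (∀ i, x i ≠ 0) →
    (∀ t, value (AlgebraicClosure K) (c t) x = 0) →
    ∀ μ : Fin k → AlgebraicClosure K, μ ≠ 0 →
      ∃ i, ∃ v : Fin (n i + 1) → AlgebraicClosure K,
        ∑ t, μ t * value (AlgebraicClosure K) (c t) (update x i v) ≠ 0

omit [DecidableEq ι] in
/-- The polynomial is homogeneous in the coordinates of each vector. -/
def Multihomogeneous (g : Polynomials K n) : Prop :=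
  ∃ δ : ι → ℕ, ∀ m ∈ g.support, ∀ i, ∑ a, m ⟨i, a⟩ = δ i

/-- The point `x` is in `U`: the forms vanish at `x`, and some `g` in `A` does not. -/
def IsIn {k : ℕ} (c : Fin k → Form K n) (A : Finset (Polynomials K n)) (x : Points K n) : Prop :=
  (∀ t, value K (c t) (fun i => (x i).rep) = 0) ∧ ∃ g ∈ A, aeval (fun v => (x v.1).rep v.2) g ≠ 0

/-- The families of nonzero vectors over `L` at which the forms vanish. -/
def Cone {k : ℕ} (c : Fin k → Form K n) (L : Type) [Field L] [Algebra K L] (x : Vectors L n) :
    Prop :=
  (∀ i, x i ≠ 0) ∧ ∀ t, value L (c t) x = 0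

/-- A positive continuous function on `X(L)`. -/
structure IsFactor {k : ℕ} (c : Fin k → Form K n) (L : Type) [NormedField L] [Algebra K L]
    (ψ : Vectors L n → ℝ) : Prop where
  positive : ∀ x, Cone c L x → 0 < ψ x
  continuous : ContinuousOn ψ {x | Cone c L x}
  invariant : ∀ a : ι → L, (∀ i, a i ≠ 0) → ∀ x, Cone c L x → ψ (fun i => a i • x i) = ψ x

omit [DecidableEq ι] in
/-- The height of a point, for the local factors `ψ w` (`w` infinite) and `φ v` (`v` in `T`). -/
noncomputable def height [NumberField K] (k : ℕ) (T : Finset (HeightOneSpectrum (𝓞 K)))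
    (ψ : ∀ w : InfinitePlace K, Vectors w.Completion n → ℝ)
    (φ : ∀ v : HeightOneSpectrum (𝓞 K), Vectors (v.adicCompletion K) n → ℝ)
    (x : Points K n) : ℝ :=
  (∏ i, (x i).mulHeight ^ (n i + 1 - k)) *
    ((∏ w, ψ w fun i a => algebraMap K w.Completion ((x i).rep a)) *
      ∏ v ∈ T, φ v fun i a => algebraMap K (v.adicCompletion K) ((x i).rep a))

/-- The points of `U` of height at most `B`. -/
def bounded [NumberField K] {k : ℕ} (c : Fin k → Form K n) (A : Finset (Polynomials K n))
    (T : Finset (HeightOneSpectrum (𝓞 K)))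
    (ψ : ∀ w : InfinitePlace K, Vectors w.Completion n → ℝ)
    (φ : ∀ v : HeightOneSpectrum (𝓞 K), Vectors (v.adicCompletion K) n → ℝ) (B : ℝ) :
    Set (Points K n) :=
  {x | IsIn c A x ∧ height k T ψ φ x ≤ B}

end

theorem result (K : Type) [Field K] [NumberField K] (ι : Type) [Fintype ι] [DecidableEq ι]
    (hι : 2 ≤ Fintype.card ι) (n : ι → ℕ) (k : ℕ) (hk : 1 ≤ k)
    (hn : ∀ i, k * Fintype.card ι * (Fintype.card ι - 1) + k ≤ n i + 1)
    (c : Fin k → Form K n) (hc : Smooth c) :
    ∃ A : Finset (Polynomials K n), (∀ g ∈ A, Multihomogeneous g) ∧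
      (∃ x : Points K n, IsIn c A x) ∧
      ∀ (T : Finset (HeightOneSpectrum (𝓞 K)))
        (ψ : ∀ w : InfinitePlace K, Vectors w.Completion n → ℝ)
        (φ : ∀ v : HeightOneSpectrum (𝓞 K), Vectors (v.adicCompletion K) n → ℝ),
        (∀ w, IsFactor c w.Completion (ψ w)) → (∀ v ∈ T, IsFactor c (v.adicCompletion K) (φ v)) →
        ∃ c1 : ℝ, 0 < c1 ∧ Filter.Tendsto (fun B : ℝ => ((bounded c A T ψ φ B).ncard : ℝ) /
          (B * Real.log B ^ (Fintype.card ι - 1))) Filter.atTop (nhds c1) := by
  have hC := Q184.SM.scnt _root_.Q144.MM.db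
  have hS := Q128.LO.SMALL.small Q151.LO.rep Q151.LO.rev Q24.MM.mk
  have hSC := Q162.LO.sc Q151.LO.rep Q151.LO.hb Q151.LO.pig hS Q128.LO.FR.fr Q162.LO.reg Q162.LO.sz
  have hNO := Q151.LO.no Q24.MM.mk
  have hFIB := Q176.EO.fib hC _root_.Q144.MM.db
  obtain ⟨A, h1, h2, h3⟩ := Q35.EOW.final2 Q285.MM.ad (Q298.SM.st Q261.SMA.sa)
    (Q298.SM.sd Q298.SM.sb) Q298.SM.se Q298.SM.sf hC Q285.MM.lw (Q79.SM.sg hC _root_.Q144.MM.db)
    (Q26.EO.st Q166.EO.lat hFIB _root_.Q144.MM.db) Q227.EO.de (Q38.EO.ht Q24.MM.mk) hSC
    Q176.EO.sum2 hNO (Q166.EO.gg Q182.EO.un hNO) Q31.EO.tau (Q241.EO.hypr Q227.EO.hyp)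
    Q280.EO.mobk
    (Q96.EOW.stw (Q53.EOW.latw Q166.EO.lat (Q68.EOW.thl Q166.EO.lat)) hFIB _root_.Q144.MM.db)
    (Q238.EOW.ggw Q182.EO.un hNO) Q96.EOW.tauw (Q203.EOW.hyprw Q227.EO.hyp) Q195.EOW.mobkw
    Q224.EOW.psi Q224.EOW.apx Q47.EOW.cp1 Q47.EOW.cp2 K ι hι n k hk hn c hc
  refine ⟨A, h1, h2, fun T ψ φ hψ hφ => ?_⟩
  have h4 := h3 T ψ φ (fun w => ⟨(hψ w).positive, (hψ w).continuous, (hψ w).invariant⟩)
    (fun v hv => ⟨(hφ v hv).positive, (hφ v hv).continuous, (hφ v hv).invariant⟩)
  exact h4

end Pool.Agent.Results.MP_1acd66_nt.MultilinearAllAdelicHeights
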