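import Pool.Agent.Q35.LO.Main
import Pool.Agent.Q285.MM.Ad
import Pool.Agent.Q285.MM.Lw
import Pool.Agent.Q144.MM.Db
import Pool.Agent.Q24.MM.MK
import Pool.Agent.Q261.SMA.Sa
import Pool.Agent.Q298.SM.T
import Pool.Agent.Q298.SM.B
import Pool.Agent.Q298.SM.D
import Pool.Agent.Q298.SM.E
import Pool.Agent.Q298.SM.F
import Pool.Agent.Q184.SM.Cnt
import Pool.Agent.Q79.SM.Nn
import Pool.Agent.Q79.SM.Gg
import Pool.Agent.Q285.SM.H
import Pool.Agent.Q151.LO.Rep
import Pool.Agent.Q151.LO.HbNo
import Pool.Agent.Q151.LO.Pig
import Pool.Agent.Q151.LO.Rev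
import Pool.Agent.Q128.LO.SMALL
import Pool.Agent.Q128.LO.FR
import Pool.Agent.Q162.LO.Reg
import Pool.Agent.Q162.LO.Sz
import Pool.Agent.Q162.LO.Sc
import Pool.Agent.Q31.LO.Sum

/-!
# Rational points of bounded anticanonical height on complete intersections of divisors of type
`(1, ..., 1)` in products of any number of projective spaces, over all number fields: the conjectured
order of magnitude `B (log B) ^ (s - 1)` is a lower bound on all dense open subsets, and
`B ^ (1 + ε)` is an upper bound on a fixed one

`K` is a number field, `ι` a finite set of `s ≥ 2` indices, `n i` the dimension of the `i`-th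
projective space (`i` in `ι`). `X` is given by `k ≥ 1` multilinear forms on the product of the spaces
`K ^ (n i + 1)`, `n i ≥ k + 1`. If `X` is smooth (of codimension `k`), then the Picard group of `X` is
generated by the pull-backs of the `s` hyperplane classes (for `k = 1` and `s = 2` as well as for
large dimensions by the theorem of Lefschetz), and the anticanonical class is `(n i + 1 - k)`; so the
conjectured number of points of anticanonical height at most `B` is `~ c B (log B) ^ (s - 1)`.

* `Form K n`: the coefficients of a multilinear form: `c a` is the coefficient of the monomial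
  `∏ x_i (a i)`; `value A c x` is its value at the family `x` of vectors with coordinates in `A`.
* `Smooth c`: at all points over the algebraic closure of `K` at which the `k` forms vanish, no
  nontrivial linear combination of the `k` gradients is zero.
* `Multihomogeneous g`: the polynomial `g` in the coordinates of all vectors is homogeneous in the
  coordinates of each vector.
* `Independent c x j`: the `k` linear forms in the `j`-th vector which one gets if one inserts the other
  vectors of the family `x` are linearly independent.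
* `bounded c g B`: the points of `X` over `K` at which `g` does not vanish, of anticanonical height
  `∏ H(x_i) ^ (n i + 1 - k) ≤ B`, where `H` is the multiplicative height of Mathlib (with respect
  to `K`).

Theorem: (1) for each multihomogeneous `g` which is not zero at some point of `X` over the algebraic
closure at which the `k` linear forms in one of the vectors are independent, the number of the points of
`X` over `K` with `g /= 0` of anticanonical height at most `B` is at least `c B (log B) ^ (s - 1)` for all
large `B`. (2) If `X` is smooth and `n i ≥ (k s - 1) (s - 1) + k - 1`, then there is a multihomogeneous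
polynomial `g0`, not zero at some point of `X` over `K`, such that the number of the points of `X` over
`K` with `g0 /= 0` of anticanonical height at most `B` is at most `C B ^ (1 + ε)` for every `ε > 0`, and
for each multihomogeneous `h` such that `g0 h` is not zero at some point of `X` over the algebraic
closure, the number of those with `g0 h /= 0` is at least `c B (log B) ^ (s - 1)` for all large `B`.
-/

set_option autoImplicit false

namespace Pool.Agent.Results.MP_1acd66_nt.MultilinearLowerOrder

open Finset Function MvPolynomial

section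

variable (K : Type) [Field K] {ι : Type} (n : ι → ℕ)

/-- The multilinear forms on the product of the spaces `K ^ (n i + 1)`, given by the coefficients. -/
abbrev Form : Type := (∀ i : ι, Fin (n i + 1)) → K

/-- The points of the product of the projective spaces. -/
abbrev Points : Type := ∀ i : ι, Projectivization K (Fin (n i + 1) → K)

/-- The polynomials in the coordinates of all vectors. -/
abbrev Polynomials : Type := MvPolynomial ((i : ι) × Fin (n i + 1)) K

variable {K n} [Fintype ι] [DecidableEq ι]

/-- The value of a multilinear form. -/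
def value (A : Type) [CommRing A] [Algebra K A] (c : Form K n) (x : ∀ i, Fin (n i + 1) → A) : A :=
  ∑ a, algebraMap K A (c a) * ∏ i, x i (a i)

/-- The complete intersection is smooth: at its points over the algebraic closure no nontrivial
linear combination of the gradients of the `k` forms is zero. -/
def Smooth {k : ℕ} (c : Fin k → Form K n) : Prop :=
  ∀ x : ∀ i, Fin (n i + 1) → AlgebraicClosure K, (∀ i, x i ≠ 0) →
    (∀ t, value (AlgebraicClosure K) (c t) x = 0) →
    ∀ μ : Fin k → AlgebraicClosure K, μ ≠ 0 →
      ∃ i, ∃ v : Fin (n i + 1) → AlgebraicClosure K,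
        ∑ t, μ t * value (AlgebraicClosure K) (c t) (update x i v) ≠ 0

/-- The polynomial is homogeneous in the coordinates of each vector. -/
def Multihomogeneous (g : Polynomials K n) : Prop :=
  ∃ δ : ι → ℕ, ∀ m ∈ g.support, ∀ i, ∑ a, m ⟨i, a⟩ = δ i

/-- The `k` linear forms in the `j`-th vector are linearly independent at `x`. -/
def Independent {k : ℕ} (c : Fin k → Form K n) (x : ∀ i, Fin (n i + 1) → AlgebraicClosure K)
    (j : ι) : Prop :=
  LinearIndependent (AlgebraicClosure K) fun (t : Fin k) (a : Fin (n j + 1)) =>
    value (AlgebraicClosure K) (c t) (update x j (Pi.single a 1))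

/-- The points of `X` at which `g` does not vanish, of anticanonical height at most `B`. -/
def bounded [NumberField K] {k : ℕ} (c : Fin k → Form K n) (g : Polynomials K n) (B : ℝ) :
    Set (Points K n) :=
  {x | ((∀ t, value K (c t) (fun i => (x i).rep) = 0) ∧
    aeval (fun v => (x v.1).rep v.2) g ≠ 0) ∧ ∏ i, (x i).mulHeight ^ (n i + 1 - k) ≤ B}

end

theorem result (K : Type) [Field K] [NumberField K] (ι : Type) [Fintype ι] [DecidableEq ι]
    (hι : 2 ≤ Fintype.card ι) (n : ι → ℕ) (k : ℕ) (hk : 1 ≤ k) (hn : ∀ i, k + 1 ≤ n i)
    (c : Fin k → Form K n) :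
    (∀ g : Polynomials K n, Multihomogeneous g →
      (∃ x : ∀ i, Fin (n i + 1) → AlgebraicClosure K,
        (∀ t, value (AlgebraicClosure K) (c t) x = 0) ∧ aeval (fun v => x v.1 v.2) g ≠ 0 ∧
          ∃ j, Independent c x j) →
      (∀ B : ℝ, (bounded c g B).Finite) ∧
      ∃ c1 B1 : ℝ, 0 < c1 ∧ ∀ B : ℝ, B1 ≤ B →
        c1 * B * Real.log B ^ (Fintype.card ι - 1) ≤ ((bounded c g B).ncard : ℝ)) ∧
    ((∀ i, (k * Fintype.card ι - 1) * (Fintype.card ι - 1) + k - 1 ≤ n i) → Smooth c →
      ∃ g0 : Polynomials K n, Multihomogeneous g0 ∧
        (∃ x : Points K n, (∀ t, value K (c t) (fun i => (x i).rep) = 0) ∧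
          aeval (fun v => (x v.1).rep v.2) g0 ≠ 0) ∧
        (∀ ε : ℝ, 0 < ε → ∃ C : ℝ, ∀ B : ℝ, 1 ≤ B →
          ((bounded c g0 B).ncard : ℝ) ≤ C * B ^ (1 + ε)) ∧
        ∀ h : Polynomials K n, Multihomogeneous h →
          (∃ x : ∀ i, Fin (n i + 1) → AlgebraicClosure K,
            (∀ t, value (AlgebraicClosure K) (c t) x = 0) ∧
              aeval (fun v => x v.1 v.2) (g0 * h) ≠ 0) →
          ∃ c1 B1 : ℝ, 0 < c1 ∧ ∀ B : ℝ, B1 ≤ B →
            c1 * B * Real.log B ^ (Fintype.card ι - 1) ≤ ((bounded c (g0 * h) B).ncard : ℝ)) :=
  have hS := Q128.LO.SMALL.small Q151.LO.rep Q151.LO.rev Q24.MM.mk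
  have hSC := Q162.LO.sc Q151.LO.rep Q151.LO.hb Q151.LO.pig hS Q128.LO.FR.fr Q162.LO.reg Q162.LO.sz
  have hNO := Q151.LO.no Q24.MM.mk
  have hC := Q184.SM.scnt _root_.Q144.MM.db
  ⟨fun g hg hx => Q35.LO.low hSC Q31.LO.sum hNO K ι hι n k hk hn c g hg hx,
    fun hn2 hc => Q35.LO.both Q285.MM.ad (Q298.SM.st Q261.SMA.sa) (Q298.SM.sd Q298.SM.sb)
      Q298.SM.se Q298.SM.sf (Q79.SM.sn hC Q285.MM.lw) (Q79.SM.sg hC _root_.Q144.MM.db)
      (Q285.SM.sh Q24.MM.mk) hSC Q31.LO.sum hNO K ι hι n k hk
      (fun i => by have := hn2 i; omega) hn c hc⟩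

end Pool.Agent.Results.MP_1acd66_nt.MultilinearLowerOrder
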