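import Pool.Agent.Q248.EQ.Main
import Pool.Agent.Q265.EQ.AdelicEquidistribution

/-!
# Products of forms of `(ℙ¹)ⁿ // SL₂` over `ℚ`: all adelic metrics, equidistribution

Let `A_0, …, A_m` be etale algebras over `ℚ` of odd degrees `≥ 5`, `A_j` a product of `r_j` number
fields, and `V_j` the form of `(ℙ¹)ⁿ // SL₂` (`n` the degree of `A_j`) of the file
`AdelicEquidistribution`: a smooth Fano variety with Picard number `r_j` (for `n = 5`: all quintic
del Pezzo surfaces over `ℚ`). The product `V = V_0 × ⋯ × V_m` is a smooth Fano variety with Picard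
number `r = r_0 + ⋯ + r_m`, and the product of the heights is an anticanonical height. The metrics
on the anticanonical bundle of `V` are given by the positive continuous functions `F` on the adelic
space of `V`; they need not be products of metrics of the factors.

The theorem: the rational points of `V` are equidistributed for each such metric, the number of
points of height at most `B` is asymptotic to `ν (1 / F) B (log B) ^ (r - 1)`, and the limit measure
`ν` is `∏ (r_j - 1)! / (r - 1)!` times the product of the limit measures `μ_j` of the factors, as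
predicted by Peyre's constant.
-/

set_option autoImplicit false

namespace Pool.Agent.Results.MP_1acd66_nt.ProductsOfForms

open Pool.Agent.Results.MP_1acd66_nt.AdelicEquidistribution
open Filter Topology NumberField

section

variable {m : ℕ} {s : Fin (m + 1) → Type} [∀ j, Fintype (s j)] [∀ j, DecidableEq (s j)]
  (K : ∀ j, s j → Type) [∀ j i, Field (K j i)] [∀ j i, NumberField (K j i)]

/-- The rational points of the open subset of the product: families of points of the factors. -/
abbrev Points : Type := ∀ j, Point (K j)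

variable {K}

/-- The anticanonical height of the product: the product of the heights. -/
noncomputable def productHeight (x : Points K) : ℝ := ∏ j, height (x j)

/-- A continuous function on the adelic space of the product, given by its values at the rational
points: a uniform limit of finite sums of products of continuous functions on the adelic spaces of
the factors (Stone-Weierstrass). -/
def ProductContinuous (F : Points K → ℝ) : Prop := ∀ ε : ℝ, 0 < ε →
  ∃ (n : ℕ) (f : Fin n → ∀ j, Point (K j) → ℝ), (∀ i j, AdelicContinuous (f i j)) ∧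
    ∀ x : Points K, |F x - ∑ i, ∏ j, f i j (x j)| ≤ ε

end

/-- The Picard number of the product: `A_j` is the product of the fields `K j i`, `i : s j`. -/
def rank {m : ℕ} (s : Fin (m + 1) → Type) [∀ j, Fintype (s j)] : ℕ := ∑ j, Fintype.card (s j)

section one

variable {s : Type} [Fintype s] (K : s → Type) [∀ i, Field (K i)] [∀ i, NumberField (K i)]

theorem adelicContinuous_one : AdelicContinuous (fun _ : Point K => (1 : ℝ)) := by
  intro ε hε
  refine ⟨∅, 1, fun _ _ => 1, fun _ _ _ => 1, by simp, fun _ => ?_, by simp, fun x P _ => ?_⟩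
  · refine ⟨⟨1, fun _ _ => by simp⟩, continuousOn_const, fun _ _ _ _ _ => rfl,
      fun _ _ _ _ _ _ _ => rfl⟩
  · simpa using hε.le

theorem card_pos (hn : 5 ≤ deg K) : 1 ≤ Fintype.card s := by
  by_contra h
  have h1 : Fintype.card s = 0 := by omega
  have h2 : IsEmpty s := Fintype.card_eq_zero_iff.1 h1
  unfold deg at hn
  simp at hn

end one

/-- **Rational points on products of forms of `(ℙ¹)ⁿ // SL₂`: equidistribution, all adelic
metrics.** `μ j` is the limit measure of the factor `V_j` (the functional of
`AdelicEquidistribution`), and `ν` the limit measure of the product. -/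
theorem result {m : ℕ} {s : Fin (m + 1) → Type} [∀ j, Fintype (s j)] [∀ j, DecidableEq (s j)]
    (K : ∀ j, s j → Type) [∀ j i, Field (K j i)] [∀ j i, NumberField (K j i)]
    (hodd : ∀ j, Odd (deg (K j))) (hn : ∀ j, 5 ≤ deg (K j)) :
    ∃ (μ : ∀ j, (Point (K j) → ℝ) → ℝ) (ν : (Points K → ℝ) → ℝ),
      (∀ j, ∀ F G : Point (K j) → ℝ, AdelicContinuous F → AdelicContinuous G →
        (∃ c : ℝ, 0 < c ∧ ∀ x, c ≤ F x) →
        Tendsto (fun B : ℝ => (∑ᶠ x ∈ {x : Point (K j) | height x * F x ≤ B}, G x) /
          (B * Real.log B ^ (Fintype.card (s j) - 1))) atTop (𝓝 (μ j fun x => G x / F x))) ∧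
      (∀ G : ∀ j, Point (K j) → ℝ, (∀ j, AdelicContinuous (G j)) →
        ν (fun x => ∏ j, G j (x j)) =
          (∏ j, ((Fintype.card (s j) - 1).factorial : ℝ)) / (rank s - 1).factorial *
            ∏ j, μ j (G j)) ∧
      0 < ν (fun _ => 1) ∧
      (∀ G, ProductContinuous G → (∀ x, 0 ≤ G x) → (∃ x, 0 < G x) → 0 < ν G) ∧
      (∀ F, ProductContinuous F → (∃ c : ℝ, 0 < c ∧ ∀ x, c ≤ F x) →
        Tendsto (fun B : ℝ => ({x : Points K | productHeight x * F x ≤ B}.ncard : ℝ) /
          (B * Real.log B ^ (rank s - 1))) atTop (𝓝 (ν fun x => 1 / F x))) ∧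
      ∀ F G, ProductContinuous F → ProductContinuous G → (∃ c : ℝ, 0 < c ∧ ∀ x, c ≤ F x) →
        Tendsto (fun B : ℝ => (∑ᶠ x ∈ {x : Points K | productHeight x * F x ≤ B}, G x) /
          (B * Real.log B ^ (rank s - 1))) atTop (𝓝 (ν fun x => G x / F x)) := by
  classical
  -- the factors
  have hres := fun j => AdelicEquidistribution.result (K j) (hodd j) (hn j)
  choose μ hμ1 hμpos hμcount hμ using hres
  have hH : ∀ j, Q265.EQ.IsHt (height : Point (K j) → ℝ) := fun j => isHt (hodd j) (hn j)
  set k : Fin (m + 1) → ℕ := fun j => Fintype.card (s j) - 1 with hk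
  have hG : ∀ j, ∀ g ∈ Products (K j), (∃ C : ℝ, ∀ t, |g t| ≤ C) ∧
      ∃ c, Q265.EQ.HasLim (height : Point (K j) → ℝ) (k j) g c := fun j =>
    products (hodd j) (hn j)
  have hrank : rank s - 1 = (∑ j, k j) + m := by
    have h1 : ∑ j, Fintype.card (s j) = (∑ j, k j) + (m + 1) := by
      have h2 : ∀ j, Fintype.card (s j) = k j + 1 := fun j => by
        have := card_pos (K j) (hn j)
        simp only [hk]
        omega
      rw [Finset.sum_congr rfl fun j _ => h2 j, Finset.sum_add_distrib]
      simp
    unfold rank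
    omega
  have hμlim : ∀ j, ∀ G : Point (K j) → ℝ, AdelicContinuous G →
      Q265.EQ.HasLim (height : Point (K j) → ℝ) (k j) G (μ j G) := by
    intro j G hG'
    have h1 := hμ j (fun _ => 1) G (adelicContinuous_one (K j)) hG' ⟨1, one_pos, fun _ => le_rfl⟩
    simp only [div_one] at h1
    refine h1.congr fun B => ?_
    rw [Q265.EQ.S_finsum]
    rfl
  have hHP := (Pool.Agent.Q248.EQ.fam (fun j => Point (K j)) (fun j => height) hH k _
    (fun j => hμlim j _ (adelicContinuous_one (K j)))).1
  have hfam := (Pool.Agent.Q248.EQ.fam (fun j => Point (K j)) (fun j => height) hH k _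
    (fun j => hμlim j _ (adelicContinuous_one (K j)))).2
  have hGP := Pool.Agent.Q248.EQ.hGP (fun j => Point (K j)) (fun j => height) hH k
    (fun j => Products (K j)) hG
  have hcl : ∀ F : Points K → ℝ, ProductContinuous F →
      Pool.Agent.Q248.EQ.PCl (fun j => Products (K j)) F := by
    intro F hF ε hε
    obtain ⟨n, f, hf, h⟩ := hF ε hε
    exact ⟨n, f, fun i j => cl_of (hf i j), h⟩
  have hone : ProductContinuous (fun _ : Points K => (1 : ℝ)) := by
    intro ε hε
    refine ⟨1, fun _ _ _ => 1, fun _ j => adelicContinuous_one (K j), fun x => ?_⟩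
    simpa using hε.le
  have hPH : (productHeight : Points K → ℝ) = fun x : (∀ j, Point (K j)) => ∏ j, height (x j) := rfl
  set k' := (∑ j, k j) + m with hk'
  obtain ⟨ν, hν⟩ : ∃ ν : (Points K → ℝ) → ℝ, ∀ G c,
      Q265.EQ.HasLim (productHeight : Points K → ℝ) k' G c → ν G = c := by
    refine ⟨fun G => if h : ∃ c, Q265.EQ.HasLim (productHeight : Points K → ℝ) k' G c then
      h.choose else 0, fun G c h => ?_⟩
    have h1 : ∃ c, Q265.EQ.HasLim (productHeight : Points K → ℝ) k' G c := ⟨c, h⟩
    show (if h : ∃ c, Q265.EQ.HasLim (productHeight : Points K → ℝ) k' G c then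
      h.choose else 0) = c
    rw [dif_pos h1]
    exact tendsto_nhds_unique h1.choose_spec h
  have hcount : ∀ F G : Points K → ℝ, ProductContinuous F → ProductContinuous G →
      (∃ c : ℝ, 0 < c ∧ ∀ x, c ≤ F x) →
      Tendsto (fun B : ℝ => (∑ᶠ x ∈ {x : Points K | productHeight x * F x ≤ B}, G x) /
        (B * Real.log B ^ k')) atTop (𝓝 (ν fun x => G x / F x)) := by
    intro F G hF hG' hc
    obtain ⟨c, h1, h2⟩ := Q265.EQ.Cl.countw hHP hGP ((hcl F hF).cl hH hG) hc ((hcl G hG').cl hH hG)
    have e : ν (fun x => G x / F x) = c := hν _ _ h1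
    rw [e]
    refine h2.congr fun B => ?_
    rw [Q265.EQ.S_finsum]
    rfl
  have hpos : ∀ G, ProductContinuous G → (∀ x, 0 ≤ G x) → (∃ x, 0 < G x) → 0 < ν G := by
    rintro G hG' hG0 ⟨x₀, hx₀⟩
    obtain ⟨c, hc⟩ := ((hcl G hG').cl hH hG).lim hHP hGP
    rw [hν _ _ hc]
    exact (hcl G hG').pos hH hG (fun j F hF hF0 x₀ hx₀ c hc =>
      support (hodd j) (hn j) hF hF0 hx₀ hc) hG0 hx₀ hc
  obtain ⟨x0⟩ : Nonempty (Points K) := by
    have hex : ∀ j, Nonempty (Point (K j)) := by
      intro j
      by_contra hcon
      rw [not_nonempty_iff] at hcon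
      have h1 := hμlim j _ (adelicContinuous_one (K j))
      have h2 := hμ1 j
      have h3 : Q265.EQ.HasLim (height : Point (K j) → ℝ) (k j) (fun _ => 1) 0 := by
        unfold Q265.EQ.HasLim
        refine tendsto_const_nhds.congr fun B => ?_
        unfold Q265.EQ.S
        rw [finsum_of_isEmpty]
        simp
      have h4 := tendsto_nhds_unique h1 h3
      rw [h4] at h2
      exact lt_irrefl _ h2
    exact ⟨fun j => (hex j).some⟩
  rw [hrank]
  refine ⟨μ, ν, fun j => hμ j, fun G hG' => ?_, hpos _ hone (fun _ => zero_le_one)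
    ⟨x0, one_pos⟩, hpos, ?_, hcount⟩
  · have hb : ∀ j, ∃ C : ℝ, ∀ t, |G j t| ≤ C := fun j => (cl_of (hG' j)).bdd (hH j) (hG j)
    have h1 := hfam G (fun j => μ j (G j)) hb fun j => hμlim j _ (hG' j)
    exact hν _ _ h1
  · intro F hF hc
    refine (hcount F (fun _ => 1) hF hone hc).congr fun B => ?_
    congr 1
    obtain ⟨c, hc0, hc⟩ := hc
    have hfin : {x : Points K | productHeight x * F x ≤ B}.Finite := by
      refine (hHP.fin (B / c)).subset fun x hx => ?_
      have h1 : productHeight x * F x ≤ B := hx
      show productHeight x ≤ B / c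
      rw [le_div_iff₀ hc0]
      exact (mul_le_mul_of_nonneg_left (hc x) (hHP.pos x).le).trans h1
    rw [finsum_mem_eq_finite_toFinset_sum _ hfin, Finset.sum_const, nsmul_eq_mul, mul_one,
      Set.ncard_eq_toFinset_card _ hfin]

end Pool.Agent.Results.MP_1acd66_nt.ProductsOfForms
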